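import Pool.Agent.W477.GM.Stms

set_option maxHeartbeats 1000000
set_option linter.all false

namespace Pool.Agent.W477.GM.W605Lift

open Pool.Agent.W477.GM

theorem feq_mk {P : Type 1} [PartialOrder P] [OrderTop P] {ι κ : Type} (U : ι → P → Prop)
    (x : ι → Nm P) (W : κ → P → Prop) (y : κ → Nm P) (p : P) :
    feq (.mk ι U x) (.mk κ W y) p ↔
    (∀ i q, q ≤ p → Lab (U i) q → ∃ r, r ≤ q ∧ ∃ j, Lab (W j) r ∧ feq (x i) (y j) r) ∧
    (∀ j q, q ≤ p → Lab (W j) q → ∃ r, r ≤ q ∧ ∃ i, Lab (U i) r ∧ feq (x i) (y j) r) := by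
  rw [feq]

theorem fmem_mk {P : Type 1} [PartialOrder P] [OrderTop P] {κ : Type} (x : Nm P)
    (W : κ → P → Prop) (y : κ → Nm P) (p : P) :
    fmem x (.mk κ W y) p ↔
      ∀ q, q ≤ p → ∃ r, r ≤ q ∧ ∃ j, Lab (W j) r ∧ feq x (y j) r := by
  rw [fmem]

theorem pj_mono {q q' : QQ} (h : q ≤ q') : pj q ≤ pj q' := ⟨le_rfl, h.2⟩

theorem Lab_pj (U : PP → Prop) (q : QQ) : Lab (fun q => U (pj q)) q ↔ Lab U (pj q) := by
  constructor
  · rintro ⟨u, hu, hq⟩
    exact ⟨pj u, hu, pj_mono hq⟩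
  · rintro ⟨r, hr, hq⟩
    let u : QQ :=
      { c := q.c
        len := r.len
        bit := r.bit
        fin := r.fin
        lt := r.lt
        off := r.off
        sup := fun j hj => q.sup j (by
          intro h0
          have h1 : r.len j ≤ q.len j := (hq.2 j).1
          rw [h0] at h1
          exact hj (le_antisymm h1 zero_le)) }
    have hu : pj u = r := Cn.ext' rfl (fun _ => rfl) (fun _ _ _ => rfl)
    refine ⟨u, ?_, le_rfl, hq.2⟩
    change U (pj u)
    rw [hu]
    exact hr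

theorem proj (hc : P_CAX) (q : QQ) (r : PP) (h : r ≤ pj q) : ∃ q', q' ≤ q ∧ pj q' = r := by
  classical
  obtain ⟨n, hn⟩ : ∃ n : ℕ, ∀ j, r.len j ≠ 0 → j.2.1 ≤ n := by
    refine ⟨r.fin.toFinset.sup (fun j => j.2.1), fun j hj => ?_⟩
    exact Finset.le_sup (f := fun j : J => j.2.1) (by
      rw [Set.Finite.mem_toFinset]
      exact hj)
  obtain ⟨d, hd, hnd⟩ := hc.2.cof q.c n
  let q' : QQ :=
    { c := d
      len := r.len
      bit := r.bit
      fin := r.fin
      lt := r.lt
      off := r.off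
      sup := fun j hj => lt_of_le_of_lt (by exact_mod_cast hn j hj) hnd }
  exact ⟨q', ⟨hd, h.2⟩, Cn.ext' rfl (fun _ => rfl) (fun _ _ _ => rfl)⟩

theorem all_iff (hc : P_CAX) (A : PP → Prop) (q : QQ) :
    (∀ q', q' ≤ q → A (pj q')) ↔ ∀ p, p ≤ pj q → A p := by
  constructor
  · intro h p hp
    obtain ⟨q', h1, rfl⟩ := proj hc q p hp
    exact h q' h1
  · intro h q' h1
    exact h _ (pj_mono h1)

theorem ex_iff (hc : P_CAX) (A : PP → Prop) (q : QQ) :
    (∃ q', q' ≤ q ∧ A (pj q')) ↔ ∃ p, p ≤ pj q ∧ A p := by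
  constructor
  · rintro ⟨q', h1, h2⟩
    exact ⟨_, pj_mono h1, h2⟩
  · rintro ⟨p, hp, h2⟩
    obtain ⟨q', h1, rfl⟩ := proj hc q p hp
    exact ⟨q', h1, h2⟩

theorem lift_mk {ι : Type} (U : ι → PP → Prop) (x : ι → Nm PP) :
    lift (.mk ι U x) = .mk ι (fun i q => U i (pj q)) (fun i => lift (x i)) := by
  rw [lift]

theorem feq_lift (hc : P_CAX) : ∀ (x y : Nm PP) (q : QQ),
    feq (lift x) (lift y) q ↔ feq x y (pj q) := by
  intro x
  induction x with
  | mk ι U x ih =>
    intro y q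
    cases y with
    | mk κ W y =>
      rw [lift_mk, lift_mk, feq_mk, feq_mk]
      simp only [Lab_pj, ih]
      constructor
      · rintro ⟨h1, h2⟩
        constructor
        · intro i
          rw [← all_iff hc (fun p => Lab (U i) p →
            ∃ r, r ≤ p ∧ ∃ j, Lab (W j) r ∧ feq (x i) (y j) r)]
          intro q' hq' hL
          rw [← ex_iff hc (fun p => ∃ j, Lab (W j) p ∧ feq (x i) (y j) p)]
          exact h1 i q' hq' hL
        · intro j
          rw [← all_iff hc (fun p => Lab (W j) p →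
            ∃ r, r ≤ p ∧ ∃ i, Lab (U i) r ∧ feq (x i) (y j) r)]
          intro q' hq' hL
          rw [← ex_iff hc (fun p => ∃ i, Lab (U i) p ∧ feq (x i) (y j) p)]
          exact h2 j q' hq' hL
      · rintro ⟨h1, h2⟩
        constructor
        · intro i q' hq' hL
          have h := h1 i (pj q') (pj_mono hq') hL
          rw [← ex_iff hc (fun p => ∃ j, Lab (W j) p ∧ feq (x i) (y j) p)] at h
          exact h
        · intro j q' hq' hL
          have h := h2 j (pj q') (pj_mono hq') hL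
          rw [← ex_iff hc (fun p => ∃ i, Lab (U i) p ∧ feq (x i) (y j) p)] at h
          exact h

theorem fmem_lift (hc : P_CAX) (x y : Nm PP) (q : QQ) :
    fmem (lift x) (lift y) q ↔ fmem x y (pj q) := by
  cases y with
  | mk κ W y =>
    rw [lift_mk, fmem_mk, fmem_mk]
    simp only [Lab_pj, feq_lift hc]
    rw [← all_iff hc (fun p => ∃ r, r ≤ p ∧ ∃ j, Lab (W j) r ∧ feq x (y j) r)]
    refine forall_congr' fun q' => forall_congr' fun _ => ?_
    exact ex_iff hc (fun p => ∃ j, Lab (W j) p ∧ feq x (y j) p) q'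

theorem lift_update (v : ℕ → Nm PP) (i : ℕ) (x : Nm PP) :
    (fun j => lift (Function.update v i x j)) =
      Function.update (fun j => lift (v j)) i (lift x) := by
  funext j
  by_cases h : j = i
  · subst h
    simp
  · simp [Function.update_of_ne h]

theorem fc_lift (hc : P_CAX) : ∀ (φ : Fm) (v : ℕ → Nm PP) (q : QQ),
    Fc VN φ (fun i => lift (v i)) q ↔ Fc (HS SP) φ v (pj q) := by
  intro φ
  induction φ with
  | eq i j => intro v q; exact feq_lift hc _ _ _
  | mem i j => intro v q; exact fmem_lift hc _ _ _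
  | fls => intro v q; exact Iff.rfl
  | imp a b iha ihb =>
    intro v q
    change (∀ q', q' ≤ q → Fc VN a _ q' → Fc VN b _ q') ↔
      ∀ p, p ≤ pj q → Fc (HS SP) a v p → Fc (HS SP) b v p
    simp only [iha, ihb]
    exact all_iff hc (fun p => Fc (HS SP) a v p → Fc (HS SP) b v p) q
  | all i a ih =>
    intro v q
    change (∀ x, VN x → Fc VN a (Function.update (fun i => lift (v i)) i x) q) ↔
      ∀ x, HS SP x → Fc (HS SP) a (Function.update v i x) (pj q)
    constructor
    · intro h x hx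
      rw [← ih, lift_update]
      exact h _ ⟨x, hx, rfl⟩
    · rintro h _ ⟨x, hx, rfl⟩
      rw [← lift_update, ih]
      exact h x hx

theorem rk_lift : ∀ x : Nm PP, rk (lift x) = rk x := by
  intro x
  induction x with
  | mk ι U x ih =>
    rw [lift_mk, rk, rk]
    simp only [ih]

theorem lab_top (q : QQ) : Lab (fun u : QQ => pj u = ⊤) q := by
  refine ⟨cz q.c, Cn.ext' rfl (fun _ => rfl) (fun _ _ _ => rfl), le_rfl, fun j => ⟨zero_le,
    fun o ho => absurd ho (not_lt.2 zero_le)⟩⟩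

theorem lab_top' {P : Type 1} [PartialOrder P] [OrderTop P] (q : P) :
    Lab (fun u : P => u = ⊤) q := ⟨⊤, rfl, le_top⟩

theorem chk_lift : ∀ (a : PSet.{0}) (q : QQ), feq (lift (chk a)) (chk a) q := by
  intro a
  induction a with
  | mk α A ih =>
    intro q
    have e1 : (chk (PSet.mk α A) : Nm PP) = .mk α (fun _ u => u = ⊤) (fun a => chk (A a)) := by
      rw [chk]
    have e2 : (chk (PSet.mk α A) : Nm QQ) = .mk α (fun _ u => u = ⊤) (fun a => chk (A a)) := by
      rw [chk]
    rw [e1, e2, lift_mk, feq_mk]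
    exact ⟨fun i q' _ _ => ⟨q', le_rfl, i, lab_top' q', ih i q'⟩,
      fun i q' _ _ => ⟨q', le_rfl, i, lab_top q', ih i q'⟩⟩

theorem pr_lift (x y : Nm PP) (x' y' : Nm QQ) (hx : ∀ q, feq (lift x) x' q)
    (hy : ∀ q, feq (lift y) y' q) (q : QQ) : feq (lift (prN x y)) (prN x' y') q := by
  unfold prN
  rw [lift_mk, feq_mk]
  have key : ∀ (b : Bool) (q' : QQ), feq (lift (cond b x y)) (cond b x' y') q' := by
    intro b q'
    cases b
    · exact hy q'
    · exact hx q'
  exact ⟨fun i q' _ _ => ⟨q', le_rfl, i, lab_top' q', key i q'⟩,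
    fun i q' _ _ => ⟨q', le_rfl, i, lab_top q', key i q'⟩⟩

theorem lift_holds (h : P_EQ) (h2 : P_FC) (h3 : P_PR) (hc : P_CAX) : P_LIFT where
  feq := feq_lift hc
  fmem := fmem_lift hc
  child := by
    intro x y q hm hy
    cases y with
    | mk κ W y =>
      rw [lift_mk, fmem_mk] at hm
      obtain ⟨r, hr, j, _, hj⟩ := hm q le_rfl
      rw [HS] at hy
      exact ⟨r, hr, y j, hy.2.2 j, hj⟩
  proj := proj hc
  fc := fc_lift hc
  rk := rk_lift
  chk := chk_lift
  op := by
    intro x y q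
    have hr : ∀ (z : Nm QQ) (q : QQ), feq z z q := (h QQ).refl
    exact pr_lift _ _ _ _ (pr_lift _ _ _ _ (fun q => hr _ q) (fun q => hr _ q))
      (pr_lift _ _ _ _ (fun q => hr _ q) (fun q => hr _ q)) q

end Pool.Agent.W477.GM.W605Lift
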